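import Pool.Agent.Run7.h23.Gn.Main
import Pool.Agent.Run7.h23.Gn.Idl
import Pool.Agent.N783.PF.Jac
import Pool.Agent.Run7.h23.Bk.Art

/-!
# The Bloch-Kato conjecture over all the 2-extensions and for all their Artin motives at once

Let `F` be a number field, `g ≥ 1`, `T` a finite set of primes of `F`, and `K₀` any finite extension of `F`.
For a monic polynomial `f` of degree `2 g + 1` over `𝓞 F` let `J` be the Jacobian of `C : y ^ 2 = f(x)`, and let
`X` be any smooth intersection of two quadrics in `P^(2g+1)` whose pencil has the discriminant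
`m ^ 2 z f(x, z)`, `f(x, z)` the homogeneous form of `f`. By Reid and Donagi `H^(2g-1)(X, ℚ_2(g)) = V_2 J` and
`CH^g(X)_0 ⊗ ℚ_2 = J(K) ⊗ ℚ_2` over every extension `K` of `F` (see `AllQuadricPencils`, where the pencils are
constructed for all `f`).

Theorem. There are a finite set `S` of primes of `F` (not over `2`, not in `T`, completely split in `K₀`)
and `c > 0` such that for all large `B` at least `c` times the number of ALL monic polynomials
`f` of degree `2 g + 1` over `𝓞 F` without term of degree `2 g` and of height at most `B` are irreducible and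
minimal and have the following property. For EVERY finite Galois extension `K / F` of 2-power degree in which
* the primes over `2`, the primes in `S` and the real places of `F` split completely,
* every ramified prime `𝔭` is in `T` or `f` is irreducible modulo `𝔭`,
(there is no bound on the degree of `K`, its Galois group or the number of ramified primes)
(1) `J(K)` is uniquely 2-divisible, so that `CH^1(C_K)_0 ⊗ ℚ_2 = CH^g(X_K)_0 ⊗ ℚ_2 = 0`;
(2) the Bloch-Kato Selmer group `H^1_f(K, V_2 J)` is zero;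
(3) for ALL integral representations `ρ : Gal(K/F) → GL_n(ℤ)`, of any dimension `n`, the Bloch-Kato Selmer
group `H^1_f(F, V_2 J ⊗ ρ)` is zero.

So for all these `f` the 2-adic Abel-Jacobi maps for `C` and for `X` are isomorphisms over all the fields `K`
at once, and the same is true for the motives `h^1(C)(1) ⊗ ρ` and `h^(2g-1)(X)(g) ⊗ ρ` over `F` with the Artin motives
`ρ` of all the extensions `K` (of any rank): these are the motives `e H^(2g-1)(X × Spec K, ℚ_2(g))`, for the
idempotents `e` in the group ring `ℚ[Gal(K/F)]`, of the smooth projective varieties `X × Spec K` over `F`. The irreducible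
representations of the 2-groups `Gal(K/F)` over an algebraic closure of `ℚ` are summands of the regular
representation, which is integral. Equivalently, the abelian varieties `J ⊗ ρ` over `F` (the twisted forms of `J ^ n`)
satisfy the conjecture for `p = 2`.

Here the group `J(L)` is the Picard group of `L[x, y] / (y ^ 2 - f)` (library `N874/Jac/Def.lean`). The elements of
`V_2 J` are the sequences of points `x_m` of 2-power order over the separable closure with `x_(m+1) ^ 2 = x_m`
(`J` is written multiplicatively). The local subgroup `H^1_f(K_w, V_2 J)` is the image of `J(K_w) ⊗ ℚ_2` (Bloch and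
Kato, Example 3.11), for all finite places `w`. In (3) we consider all the classes in `H^1(F, V_2 J ⊗ ρ)` whose
restriction to `K` is in `H^1_f(K, V_2 J) ^ n`; it is well known that these are the classes in
`H^1_f(F, V_2 J ⊗ ρ)` (only the trivial inclusion is needed).

The case `K = F`, `ρ = 1` is `AllQuadricPencils` (starting tree, project PF of helper783 and the file
`N844/QF/Hf.lean`, which deduces the vanishing of `H^1_f(K, V_2 J)` from (1) and from the vanishing of the 2-primary
part of the Tate-Shafarevich group). That one set of polynomials works for all the fields `K` is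
`MP_a43263_nt.UniformOddHyperelliptic` (`Run7/h23/Gn`). New here: the Selmer groups of the Artin twists
(`Run7/h23/Bk`): the restriction of a cocycle to `K` is a coboundary; the difference to the
coboundary over `F` is a cocycle which is trivial on `Gal(K)` and so it has values in the invariants
`V_2 J(K) ⊗ ρ = 0`.
-/

set_option autoImplicit false
set_option linter.all false

namespace Pool.Agent.Results.MP_787500_nt.AllArtinTwists

open Filter NumberField IsDedekindDomain Polynomial
open Pool.Agent.N874.Jac (J mapJ Gal UniquelyTwoDivisible)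
open scoped Classical

section defs

variable (F : Type) [Field F] [NumberField F]

/-- All monic polynomials of degree `2 g + 1` with coefficients in the ring of integers of `F`, without term
of degree `2 g`, such that all conjugates of the coefficient of `x ^ j` have absolute value at
most `B ^ (2 g + 1 - j)`. -/
def Polys (g B : ℕ) : Set ((𝓞 F)[X]) :=
  {f | f.Monic ∧ f.natDegree = 2 * g + 1 ∧ f.coeff (2 * g) = 0 ∧
    ∀ j ≤ 2 * g, ∀ σ : F →+* ℂ, ‖σ (f.coeff j : F)‖ ≤ (B : ℝ) ^ (2 * g + 1 - j)}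

variable {F}

/-- The polynomial over the extension `K` of `F`. -/
noncomputable def overK (K : Type) [Field K] [Algebra F K] (f : (𝓞 F)[X]) : K[X] :=
  (f.map (algebraMap (𝓞 F) F)).map (algebraMap F K)

/-- The equation `y ^ 2 = f(x)` is minimal: there is no prime `𝔭` such that `𝔭 ^ (2 i)` divides the coefficient
of `x ^ (2 g + 1 - i)` for all `i > 0`. -/
def IsMinimal (g : ℕ) (f : (𝓞 F)[X]) : Prop :=
  ∀ 𝔭 : Ideal (𝓞 F), 𝔭.IsPrime → 𝔭 ≠ ⊥ → ¬ ∀ j ≤ 2 * g, f.coeff j ∈ 𝔭 ^ (2 * (2 * g + 1 - j))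

/-- `f` is irreducible modulo the prime `𝔭`. -/
def IrreducibleMod (𝔭 : HeightOneSpectrum (𝓞 F)) (f : (𝓞 F)[X]) : Prop :=
  Irreducible (f.map (Ideal.Quotient.mk 𝔭.asIdeal))

variable (K : Type) [Field K] [NumberField K] [Algebra F K]

/-- The prime `𝔭` of `F` splits completely in `K`: for every prime `𝔓` over `𝔭` the square of `𝔓` does not divide
`𝔭` and every integer of `K` is congruent to an integer of `F` modulo `𝔓`. -/
def SplitsCompletely (𝔭 : HeightOneSpectrum (𝓞 F)) : Prop :=
  ∀ 𝔓 : HeightOneSpectrum (𝓞 K), 𝔭.asIdeal.map (algebraMap (𝓞 F) (𝓞 K)) ≤ 𝔓.asIdeal →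
    ¬ 𝔭.asIdeal.map (algebraMap (𝓞 F) (𝓞 K)) ≤ 𝔓.asIdeal ^ 2 ∧
      ∀ y : 𝓞 K, ∃ x : 𝓞 F, y - algebraMap (𝓞 F) (𝓞 K) x ∈ 𝔓.asIdeal

/-- The prime `𝔭` of `F` is ramified in `K`. -/
def Ramified (𝔭 : HeightOneSpectrum (𝓞 F)) : Prop :=
  ∃ 𝔓 : HeightOneSpectrum (𝓞 K), 𝔭.asIdeal.map (algebraMap (𝓞 F) (𝓞 K)) ≤ 𝔓.asIdeal ^ 2

/-- The conditions on the Galois extension `K / F`: the degree is a power of two, the primes over `2`, the
primes in `S` and the real places (for a Galois extension: every embedding of `F` in `ℝ` extends to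
`K`) split completely, and every ramified prime is in `T` or `f` is irreducible modulo it. -/
structure Allowed (S T : Finset (HeightOneSpectrum (𝓞 F))) (f : (𝓞 F)[X]) : Prop where
  degree : ∃ n : ℕ, Module.finrank F K = 2 ^ n
  two : ∀ 𝔭 : HeightOneSpectrum (𝓞 F), (2 : 𝓞 F) ∈ 𝔭.asIdeal → SplitsCompletely K 𝔭
  split : ∀ 𝔭 ∈ S, SplitsCompletely K 𝔭
  real : ∀ ρ : F →+* ℝ, ∃ τ : K →+* ℝ, ∀ x : F, τ (algebraMap F K x) = ρ x
  ramified : ∀ 𝔭 : HeightOneSpectrum (𝓞 F), Ramified K 𝔭 → 𝔭 ∈ T ∨ IrreducibleMod 𝔭 f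

end defs

/-! ### The Bloch-Kato Selmer groups -/

section selmer

variable {F : Type} [Field F] (P : F[X]) {Ω : Type} [Field Ω] [Algebra F Ω]

/-- The elements of `V_2 J`, `J` the Jacobian of `y ^ 2 = P(x)` (written multiplicatively), `Ω` a separable
closure of `F`: the sequences of points `x_m ∈ J(Ω)` of 2-power order with `x_(m + 1) ^ 2 = x_m`. -/
def IsV (x : ℕ → J P Ω) : Prop := ∀ m, x (m + 1) ^ 2 = x m ∧ ∃ k : ℕ, x m ^ 2 ^ k = 1

/-- The action of the automorphism `σ` on `J(Ω) ^ n`, twisted by the integral matrix `M`. -/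
noncomputable def act {n : ℕ} (M : Matrix (Fin n) (Fin n) ℤ) (σ : Ω ≃ₐ[F] Ω) (y : Fin n → J P Ω)
    (i : Fin n) : J P Ω := ∏ j, mapJ P σ.toAlgHom (y j) ^ M i j

/-- The continuous cocycles on `Gal(Ω/F)` with values in `V_2 J ⊗ ρ`. -/
structure IsCocycle {n : ℕ} (ρ : (Ω ≃ₐ[F] Ω) →* Matrix (Fin n) (Fin n) ℤ)
    (c : (Ω ≃ₐ[F] Ω) → Fin n → ℕ → J P Ω) : Prop where
  values : ∀ σ i, IsV P (c σ i)
  continuous : ∀ i m, IsLocallyConstant fun σ => c σ i m
  cocycle : ∀ σ τ i m, c (σ * τ) i m = c σ i m * act P (ρ σ) σ (fun j => c τ j m) i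

/-- The coboundaries. -/
def IsCoboundary {n : ℕ} (ρ : (Ω ≃ₐ[F] Ω) →* Matrix (Fin n) (Fin n) ℤ)
    (c : (Ω ≃ₐ[F] Ω) → Fin n → ℕ → J P Ω) : Prop :=
  ∃ x : Fin n → ℕ → J P Ω, (∀ i, IsV P (x i)) ∧
    ∀ σ i m, c σ i m = act P (ρ σ) σ (fun j => x j m) i / x i m

/-- For an embedding `ι : Ω → Ω'` and a point `Q ∈ J(Ω')` the restriction of the cocycle `c` with values in
`J(Ω)` to the automorphisms of `Ω'` over `E` is `τ ↦ τ Q / Q`. -/
def Restricts (E : Type) {Ω' : Type} [Field E] [Field Ω'] [Algebra E Ω'] [Algebra F E] [Algebra F Ω']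
    [IsScalarTower F E Ω'] (ι : Ω →ₐ[F] Ω') (Q : J P Ω') (c : (Ω ≃ₐ[F] Ω) → J P Ω) : Prop :=
  ∀ (τ : Ω' ≃ₐ[E] Ω') (σ : Ω ≃ₐ[F] Ω), (∀ x, τ (ι x) = ι (σ x)) →
    mapJ P ι (c σ) = mapJ P (τ.toAlgHom.restrictScalars F) Q / Q

/-- The restriction of the class of `c` to `E` is in the image of `J(E) ⊗ ℚ_2 → H ^ 1 (E, V_2 J)`, `Ω'` a
separable closure of `E`: there are an embedding `Ω → Ω'` and points `Q_m ∈ J(Ω')` with
`Q_(m + 1) ^ 2 = Q_m` and `c(τ)_m = τ Q_m / Q_m` for all automorphisms `τ` of `Ω'` over `E`. -/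
def KummerIn (E Ω' : Type) [Field E] [Field Ω'] [Algebra E Ω'] [Algebra F E] [Algebra F Ω']
    [IsScalarTower F E Ω'] (c : (Ω ≃ₐ[F] Ω) → ℕ → J P Ω) : Prop :=
  ∃ (ι : Ω →ₐ[F] Ω') (Q : ℕ → J P Ω'), (∀ m, Q (m + 1) ^ 2 = Q m) ∧
    ∀ m, Restricts P E ι (Q m) fun σ => c σ m

end selmer

section global

/-- The class of the cocycle `c` on the absolute Galois group of the number field `K` with values in `V_2 J` is in
the image of `J(K_w) ⊗ ℚ_2` for all finite places `w` of `K`. -/
def Kummer {K : Type} [Field K] [NumberField K] (P : K[X])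
    (c : Gal K → ℕ → J P (SeparableClosure K)) : Prop :=
  ∀ w : HeightOneSpectrum (𝓞 K),
    KummerIn P (w.adicCompletion K) (SeparableClosure (w.adicCompletion K)) c

/-- The Bloch-Kato Selmer group `H ^ 1_f (K, V_2 J)` is zero. -/
def SelmerZero (K : Type) [Field K] [NumberField K] (P : K[X]) : Prop :=
  ∀ c : Gal K → Fin 1 → ℕ → J P (SeparableClosure K), IsCocycle P 1 c →
    (Kummer P fun σ => c σ 0) → IsCoboundary P 1 c

variable {F : Type} [Field F] (P : F[X]) (K : Type) [Field K] [Algebra F K]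
  [Algebra F (SeparableClosure K)] [IsScalarTower F K (SeparableClosure K)]

variable (F) in
/-- The group of the automorphisms over `F` of the separable closure of `K`. -/
abbrev GalOver : Type := SeparableClosure K ≃ₐ[F] SeparableClosure K

/-- The restriction to `K` of the component `i` of a cocycle over `F`. The map `bc` is the identification of the
group `J(Ω)` for `y ^ 2 = P(x)` over `F` and over `K`. -/
noncomputable def restriction {n : ℕ} (c : GalOver F K → Fin n → ℕ → J P (SeparableClosure K))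
    (i : Fin n) : Gal K → ℕ → J (P.map (algebraMap F K)) (SeparableClosure K) :=
  fun σ m => Run7.h23.Bk.bc K P (SeparableClosure K) (c (Run7.h23.Bk.rsE σ) i m)

/-- The representation `ρ` of the Galois group over `F` factors through the restriction to `K`. -/
def TrivialOn {n : ℕ} (ρ : GalOver F K →* Matrix (Fin n) (Fin n) ℤ) : Prop :=
  ∀ σ : GalOver F K, (∀ z : K, σ (algebraMap K _ z) = algebraMap K _ z) → ρ σ = 1

/-- Every continuous cocycle with values in `V_2 J ⊗ ρ` whose restriction to `K` is in the image of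
`J(K_w) ^ n ⊗ ℚ_2` for all finite places `w` of `K` is a coboundary. -/
def TwistZero [NumberField K] {n : ℕ} (ρ : GalOver F K →* Matrix (Fin n) (Fin n) ℤ) : Prop :=
  ∀ c : GalOver F K → Fin n → ℕ → J P (SeparableClosure K), IsCocycle P ρ c →
    (∀ i, Kummer (P.map (algebraMap F K)) (restriction P K c i)) → IsCoboundary P ρ c

omit [Algebra F (SeparableClosure K)] [IsScalarTower F K (SeparableClosure K)] in
/-- The Bloch-Kato Selmer groups `H ^ 1_f (F, V_2 J ⊗ ρ)` are zero for all the integral representations `ρ` of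
`Gal(K/F)`. -/
def ArtinTwistsZero [NumberField K] : Prop :=
  ∀ [Algebra F (SeparableClosure K)] [IsScalarTower F K (SeparableClosure K)] (n : ℕ)
    (ρ : GalOver F K →* Matrix (Fin n) (Fin n) ℤ), TrivialOn K ρ → TwistZero P K ρ

end global

section uniform

variable {F : Type} [Field F] [NumberField F]

/-- The properties over `K`. -/
structure BlochKato (K : Type) [Field K] [NumberField K] [Algebra F K] (f : (𝓞 F)[X]) : Prop where
  /-- multiplication by two is bijective on `J(K)` -/
  points : UniquelyTwoDivisible (overK K f)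
  /-- `H ^ 1_f (K, V_2 J) = 0` -/
  selmer : SelmerZero K (overK K f)
  /-- `H ^ 1_f (F, V_2 J ⊗ ρ) = 0` for all `ρ` -/
  artin : ArtinTwistsZero (f.map (algebraMap (𝓞 F) F)) K

/-- The property of `f` in the theorem. -/
def Uniform (S T : Finset (HeightOneSpectrum (𝓞 F))) (f : (𝓞 F)[X]) : Prop :=
  ∀ (K : Type) [Field K] [NumberField K] [Algebra F K] [IsGalois F K], Allowed K S T f →
    BlochKato K f

end uniform

theorem ht_iff {F : Type} [Field F] [NumberField F] (g B : ℕ) (f : (𝓞 F)[X]) :
    Pool.Agent.N783.PF.Ht g B f ↔ f ∈ Polys F g B :=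
  ⟨fun h => ⟨h.mon, h.deg, h.tr, h.ht⟩, fun h => ⟨h.1, h.2.1, h.2.2.1, h.2.2.2⟩⟩

theorem mem (F : Type) [Field F] [NumberField F] (g B : ℕ) : (X ^ (2 * g + 1) : (𝓞 F)[X]) ∈ Polys F g B := by
  refine ⟨monic_X_pow _, natDegree_X_pow _, ?_, fun j hj σ => ?_⟩
  · rw [coeff_X_pow, if_neg (by omega)]
  · rw [coeff_X_pow, if_neg (by omega)]
    simp

/-- `H ^ 1_f (K, V_2 J) = 0`. -/
theorem selmer_of {K : Type} [Field K] [NumberField K] {P : K[X]} (hm : P.Monic)
    (ho : Odd P.natDegree) (hs : P.Separable) (hU : UniquelyTwoDivisible P)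
    (hS : Pool.Agent.N874.Jac.ShaTwoTrivialReal P (𝓞 K)) : SelmerZero K P := by
  intro c hc hl
  have hact : ∀ (σ : Gal K) (y : Fin 1 → J P (SeparableClosure K)) (i : Fin 1),
      act P ((1 : Gal K →* Matrix (Fin 1) (Fin 1) ℤ) σ) σ y i = mapJ P σ.toAlgHom (y i) :=
    fun σ y i => Run7.h23.Bk.tw_one P 1 rfl y i
  obtain ⟨x, hx1, hx2⟩ := Pool.Agent.N844.QF.h1f_zero (F := P) two_ne_zero hm hs ho (𝓞 K) hU hS
    (fun σ m => c σ 0 m) (fun m => hc.continuous 0 m) (fun σ m => hc.values σ 0 m)
    (fun σ τ m => by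
      have h := hc.cocycle σ τ 0 m
      rw [hact] at h
      exact h)
    (fun w m => by
      obtain ⟨ι, Q, -, hQ⟩ := hl w
      exact ⟨ι, Q m, fun τ σ hx => hQ m τ σ hx⟩)
  refine ⟨fun _ => x, fun _ => hx1, fun σ i m => ?_⟩
  rw [hact, Fin.fin_one_eq_zero i]
  exact hx2 σ m

/-- The Artin twists. -/
theorem artin_of {F K : Type} [Field F] [NumberField F] [Field K] [NumberField K] [Algebra F K]
    [Normal F K] {P : F[X]} (hm : P.Monic) (ho : Odd P.natDegree)
    (hs : (P.map (algebraMap F K)).Separable)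
    (hU : UniquelyTwoDivisible (P.map (algebraMap F K)))
    (hS : Pool.Agent.N874.Jac.ShaTwoTrivialReal (P.map (algebraMap F K)) (𝓞 K)) :
    ArtinTwistsZero P K := by
  intro _ _ n ρ hρ c hc hl
  exact Run7.h23.Bk.art_zero P ρ hm ho hs hU hS hρ c hc.continuous hc.values hc.cocycle
    fun w i m => by
      obtain ⟨ι, Q, -, hQ⟩ := hl i w
      exact ⟨ι, Q m, fun τ σ hx => hQ m τ σ hx⟩

/-- For every number field `F`, every `g ≥ 1`, every finite set `T` of primes of `F` and every finite
extension `K₀` of `F` there are a finite set `S` of primes of `F`, not over `2`, not in `T` and completely split in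
`K₀`, and `c > 0` such that for all large `B` at least `c` times the number of all monic polynomials `f` of
degree `2 g + 1` over the ring of integers without term of degree `2 g` and of height at most `B` are irreducible
over `F`, minimal, and have the property: for EVERY finite Galois extension `K` of `F` of 2-power degree in
which the primes over `2`, the primes in `S` and the real places split completely and every ramified prime
is in `T` or is a prime modulo which `f` is irreducible, `J(K)` is uniquely 2-divisible, the Bloch-Kato Selmer group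
`H ^ 1_f (K, V_2 J)` is zero and the Bloch-Kato Selmer groups `H ^ 1_f (F, V_2 J ⊗ ρ)` are zero for all the
integral representations `ρ` of `Gal(K/F)`. -/
theorem result (F : Type) [Field F] [NumberField F] (g : ℕ) (hg : 1 ≤ g)
    (T : Finset (HeightOneSpectrum (𝓞 F))) (K₀ : Type) [Field K₀] [NumberField K₀] [Algebra F K₀] :
    ∃ S : Finset (HeightOneSpectrum (𝓞 F)),
      (∀ 𝔭 ∈ S, (2 : 𝓞 F) ∉ 𝔭.asIdeal ∧ 𝔭 ∉ T ∧ SplitsCompletely K₀ 𝔭) ∧
      ∃ c : ℝ, 0 < c ∧ ∀ᶠ B : ℕ in atTop,
        (Polys F g B).Finite ∧ 0 < (Polys F g B).ncard ∧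
        c * ((Polys F g B).ncard : ℝ) ≤
          (({f ∈ Polys F g B | Irreducible (f.map (algebraMap (𝓞 F) F)) ∧ IsMinimal g f ∧
            Uniform S T f}).ncard : ℝ) := by
  obtain ⟨S, hS, c, hc, B₀, h⟩ := Run7.h23.Gn.mainI g F hg T K₀
  refine ⟨S, fun v hv => ?_, c, hc, ?_⟩
  · obtain ⟨h1, h2, h3⟩ := hS v hv
    exact ⟨h1, h2, Run7.h23.Gn.spI_of_sp h3⟩
  filter_upwards [eventually_ge_atTop B₀] with B hB
  obtain ⟨hfin, hle⟩ := h B hB
  have hset : {f : (𝓞 F)[X] | Pool.Agent.N783.PF.Ht g B f} = Polys F g B := by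
    ext f
    exact ht_iff g B f
  rw [hset] at hfin hle
  refine ⟨hfin, (Set.ncard_pos hfin).2 ⟨_, mem F g B⟩, hle.trans ?_⟩
  have h3 : {f : (𝓞 F)[X] | Pool.Agent.N783.PF.Ht g B f ∧
      Irreducible (Pool.Agent.N783.PF.fF f) ∧ Pool.Agent.N783.PF.Min g f ∧
      Run7.h23.Gn.GoodP S T f} ⊆
      {f ∈ Polys F g B | Irreducible (f.map (algebraMap (𝓞 F) F)) ∧ IsMinimal g f ∧
        Uniform S T f} := by
    rintro f ⟨hf, hi, hm, hg'⟩
    refine ⟨(ht_iff g B f).1 hf, hi, hm, ?_⟩
    intro K _ _ _ _ hK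
    obtain ⟨n, hn⟩ := hK.degree
    obtain ⟨h4, h5⟩ := hg' K n hn (fun v hv => Run7.h23.Gn.sp_of_spI (hK.two v hv))
      (fun v hv => Run7.h23.Gn.sp_of_spI (hK.split v hv)) hK.real
      (fun v hv => hK.ramified v (by
        by_contra hc
        exact hv (Run7.h23.Gn.un_of_not hc)))
    have ho : Odd (f.map (algebraMap (𝓞 F) (𝓞 K))).natDegree := by
      rw [hf.mon.natDegree_map, hf.deg]; exact odd_two_mul_add_one g
    have h6 := Pool.Agent.N783.PF.jac (f := f.map (algebraMap (𝓞 F) (𝓞 K))) (hf.mon.map _)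
      ho h4 h5
    have hmK : (Pool.Agent.N783.PF.fF (f.map (algebraMap (𝓞 F) (𝓞 K)))).Monic :=
      (hf.mon.map _).map _
    have hoK : Odd (Pool.Agent.N783.PF.fF (f.map (algebraMap (𝓞 F) (𝓞 K)))).natDegree := by
      have e := (hf.mon.map (algebraMap (𝓞 F) (𝓞 K))).natDegree_map (algebraMap (𝓞 K) K)
      show Odd ((f.map (algebraMap (𝓞 F) (𝓞 K))).map (algebraMap (𝓞 K) K)).natDegree
      rw [e]
      exact ho
    rw [Run7.h23.Gn.fF_map] at h6 h4 hmK hoK
    have hmF : (f.map (algebraMap (𝓞 F) F)).Monic := hf.mon.map _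
    have hoF : Odd (f.map (algebraMap (𝓞 F) F)).natDegree := by
      rw [hf.mon.natDegree_map, hf.deg]; exact odd_two_mul_add_one g
    exact ⟨h6.1, selmer_of hmK hoK h4.separable h6.1 h6.2,
      artin_of hmF hoF h4.separable h6.1 h6.2⟩
  have h4 := Set.ncard_le_ncard h3 (hfin.subset fun f hf => hf.1)
  exact_mod_cast h4

end Pool.Agent.Results.MP_787500_nt.AllArtinTwists
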