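import Pool.Agent.Results.MP_787500_nt.AllWeightsMultiquadraticX49
import Pool.Agent.Results.MP_6e2fc3_nt.CMFormsAllWeights
import Pool.Agent.Run7.h359.Twr
import Pool.Agent.Run7.h359.La13
import Pool.Agent.Run7.h359.Gng

/-!
# The Bloch–Kato Selmer groups of all weights over multiquadratic fields, for all the twists of
# `X_0(49)` by numbers with prime factors `1 mod 4`

`K = ℚ(√-7)`. Let `E_D` be the quadratic twist by `D` of `X_0(49)`, an elliptic curve over `ℚ` with
complex multiplication by `ℤ[ω]`, `ω² = ω - 2`. The group `Gal(ℚ̄/K)` acts on its `2`-adic Tate module by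
two characters `κ`, `κ'`. For `k > 0` the representation `H^{2k-1}(E_D^{2k-1}, ℚ_2(k))` contains the
`2`-adic representation `ℚ_2(κ^k κ'^(1-k)) ⊕ ℚ_2(κ^(1-k) κ'^k)` of the newform of weight `2k` of the Hecke
character `ψ_D^{2k-1}`, at the central point. Over a real field `F` it is the representation induced from
`κ^k κ'^(1-k)`. For `M > 0`, `M = 1 mod 8`, the sign of the functional equation of `L(ψ_D^{2k-1}, s)` is
`+1` for `D = M` if `k` is odd, and for `D = -M` if `k` is even.

The class consists of the squarefree `D = 1 mod 8` with all prime factors `1 mod 4`. A pair of `M` and of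
`ℚ(√d_1, …, √d_n)` is good if all the numbers `M ∏_{i ∈ T} d_i` are, up to squares, numbers `D` of the
class such that `E_D(ℚ)` is finite and `Ш(E_D/ℚ)` has no element of order two: a condition on the weight
`2` and the field `ℚ` only.
* If the pair is good then for **all** `k > 0` the Bloch–Kato Selmer groups over `F = ℚ(√d_1, …, √d_n)` and
  over `L = K(√d_1, …, √d_n)` of the representations of the newforms of weight `2k` are zero, for the
  curve `E_M` if `k` is odd and for the curve `E_{-M}` if `k` is even.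
* For all `M`, `d_1, …, d_n` of the class (`d_1, …, d_n` independent modulo squares) the pair `(M D, d)` is
  good for **exactly** the proportion `c ^ 2 ^ n` of the `D` of the class, `c = 0.4194…`. The class has the
  order of magnitude `X / √(log X)` (Landau).
* For **exactly** the proportion `c ^ 2 ^ n / 4` of **all** the pairs `(a, b)` of integers the number
  `N = a² + b²` is `1 mod 8` and the pair `(M N, d)` is good.
* For every `M` of the class such that `E_M(ℚ)` is finite and `Ш(E_M/ℚ)[2] = 0` there is an infinite tower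
  of fields `F_n = ℚ(√D_0, …, √D_{n-1})` of degree `2^n` with this property.

The starting file `AllWeightsMultiquadraticX49` treats the odd `k` and the subclass of the numbers with
prime factors `1 mod 8` and split in `K` or `5 mod 8` and inert in `K`, of order of magnitude
`X / (log X)^(3/4)`. The analysis of the elements of `L^× / L^×²` that satisfy the local conditions
(`Pool/Agent/R384`, starting files) is used; new is that the criterion of weight two (the matrix of
Legendre symbols and quartic symbols of `-7`) controls it for all the prime factors `1 mod 4`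
(`Run7/h359/Wsel`, `Wal`) and in all the even weights for the curve `E_{-M}` (`Gab`, `Gng`: modulo four its
characters are those of `E_M` with the two places above `2` exchanged), the proportions (`La1` to `La13`,
after the laws without the condition modulo `8` in `R413` (starting files) and `Run7/h428` (helper428))
and the towers (`Twr`).
-/

set_option autoImplicit false

namespace Pool.Agent.Results.MP_787500_nt.AllWeightsFullClassX49

open Pool.Agent.Results.MP_787500_nt.AllWeightsMultiquadraticX49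
open Pool.Agent.Results.MP_6e2fc3_nt.CMFormsAllWeights
open Filter Topology
open scoped Classical

/-- The class: `D = 1 mod 8` is squarefree, and all its prime factors are `1 mod 4`. -/
def Wide (D : ℕ) : Prop := Squarefree D ∧ D % 8 = 1 ∧ ∀ p : ℕ, p.Prime → p ∣ D → p % 4 = 1

/-- The good pairs: all the numbers `M ∏_{i ∈ T} d_i` are, up to nonzero squares, numbers `D` of the
class such that `E_D(ℚ)` is finite and `Ш(E_D/ℚ)` has no element of order two. -/
def GoodPair (M : ℕ) {n : ℕ} (d : Fin n → ℕ) : Prop := ∀ T : Finset (Fin n), ∃ D k : ℕ,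
  k ≠ 0 ∧ Wide D ∧ RankZeroShaTwo D ∧ M * ∏ i ∈ T, d i = D * k ^ 2

/-- For large `X` at least `a X / √(log X)` of the `D ≤ X` of the class have the property `P`,
with a constant `a > 0`. -/
def OfOrder (P : ℕ → Prop) : Prop := ∃ (a : ℝ) (X₀ : ℕ), 0 < a ∧ ∀ X : ℕ, X₀ ≤ X →
  a * X / Real.sqrt (Real.log X) ≤ (((Finset.Icc 1 X).filter fun D => Wide D ∧ P D).card : ℝ)

/-- The property `P` holds for the proportion `δ` of the numbers `D` of the class. -/
def Proportion (δ : ℝ) (P : ℕ → Prop) : Prop := Tendsto (fun X : ℕ =>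
  (((Finset.Icc 1 X).filter fun D => Wide D ∧ P D).card : ℝ) /
    (((Finset.Icc 1 X).filter fun D => Wide D).card : ℝ)) atTop (𝓝 δ)

/-- The number of the pairs `(a, b)` of integers with `a² + b² ≤ X` and with `P (a² + b²)`. -/
noncomputable def pairs (P : ℕ → Prop) (X : ℕ) : ℕ :=
  Nat.card {v : ℤ × ℤ // v.1.natAbs ^ 2 + v.2.natAbs ^ 2 ≤ X ∧ P (v.1.natAbs ^ 2 + v.2.natAbs ^ 2)}

/-- `P (a² + b²)` holds for the proportion `δ` of all the pairs `(a, b)` of integers, ordered by
`a² + b²`. -/
def PairProportion (δ : ℝ) (P : ℕ → Prop) : Prop := Tendsto (fun X : ℕ =>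
  (pairs P X : ℝ) / (pairs (fun _ => True) X : ℝ)) atTop (𝓝 δ)

/-- The curve `E_{-D} : y² + x y = x³ + ((3 D - 1) / 4) x² - 2 D² x + D³` over `ℚ`, the quadratic twist
by `-D` of `X_0(49)`. -/
def Eneg (D : ℕ) : WeierstrassCurve ℚ :=
  { a₁ := 1, a₂ := (3 * (D : ℚ) - 1) / 4, a₃ := 0, a₄ := -2 * (D : ℚ) ^ 2, a₆ := (D : ℚ) ^ 3 }

/-- The curve `E_{-M}` is over `K` isomorphic to the elliptic curve `ED w (-tw M)`, the Galois group acts
on its `2`-adic Tate module by `κ`, `κ'`, and for **all even** `k > 0` the Selmer groups over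
`L = K(√d_1, …, √d_n)` of `ℚ_2(κ^k κ'^(1-k))` and `ℚ_2(κ^(1-k) κ'^k)` and the Selmer group over
`F = ℚ(√d_1, …, √d_n)` of the representation induced from `κ^k κ'^(1-k)` are zero. -/
def NegativeTwist (M : ℕ) {n : ℕ} (d : Fin n → ℕ) : Prop := ∀ w : QBar, w ^ 2 = w - 2 →
  Iso ((Eneg M).map (algebraMap ℚ (K w))) (ED w (-tw M)) ∧ (ED w (-tw M)).IsElliptic ∧
  ∃ κ κ' : Chr w, TateModule (-tw M) κ κ' ∧
    ∀ s : Fin n → QBar, (∀ i, s i ^ 2 = (d i : QBar)) → ∀ k : ℤ, 0 < k → Even k →
      SelmerZero (1 - w) (GalL w s) (chi κ κ' k) ∧ SelmerZero w (GalL w s) (chi κ κ' (1 - k)) ∧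
      ∀ c₀ : GQ, c₀ w = 1 - w → Zero s (chi κ κ' k) c₀

/-- All the Selmer groups over `L = K(√d_1, …, √d_n)` and over `F = ℚ(√d_1, …, √d_n)` are zero, for the
curve `E_M` and all odd `k > 0`, and for the curve `E_{-M}` and all even `k > 0`. -/
def SelmerVanish (M : ℕ) {n : ℕ} (d : Fin n → ℕ) : Prop :=
  AllWeights M d ∧ AllForms M d ∧ NegativeTwist M d

/-- There is an infinite sequence `D_0, D_1, …` of members of the class such that for all `n` the field
`F_n = ℚ(√D_0, …, √D_{n-1})` has degree `2 ^ n` (no product of some of the `D_i` is a square), and the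
Selmer groups over `F_n` and over `F_n(√-7)` are zero, for all `k > 0`. -/
def Tower (M : ℕ) : Prop :=
  ∃ D : ℕ → ℕ, (∀ i, Wide (D i)) ∧
    ∀ n : ℕ, Ind (fun i : Fin n => D i) ∧ SelmerVanish M (fun i : Fin n => D i)

section proof

theorem all_of_pair {M n : ℕ} {d : Fin n → ℕ} (hG : GoodPair M d) : SelmerVanish M d := by
  have h : AllWeights M d := by
    intro w hw
    obtain ⟨h1, h2, κ, κ', h3, h4⟩ := Run7.h359.WD.all_ofW hG hw
    exact ⟨h1, h2, κ, κ', h3, fun s hs => (h4 s hs).1⟩
  refine ⟨h, forms_of h, fun w hw => ?_⟩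
  obtain ⟨h1, h2, κ, κ', h3, h4⟩ := Run7.h359.GA.neg_ofW hG hw
  refine ⟨h1, h2, κ, κ', h3, fun s hs k _ hk => ?_⟩
  have ho : Odd (1 - k) := by
    rw [Int.odd_sub]
    simp [hk]
  obtain ⟨h5, h6⟩ := (h4 s hs).1 k (1 - k) hk ho
  refine ⟨h5, ?_, fun c₀ hc₀ => zero_of hw hc₀ hs h5⟩
  have e : chi κ κ' (1 - k) = κ ^ (1 - k) * κ' ^ k := by
    unfold chi
    rw [sub_sub_cancel]
  rw [e]
  exact h6

theorem ofOrder_of {P : ℕ → Prop} {a : ℝ} {X₀ : ℕ} (ha : 0 < a) {G : ℕ → Finset ℕ}
    (h : ∀ X : ℕ, X₀ ≤ X → a * X / Real.sqrt (Real.log X) ≤ ((G X).card : ℝ))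
    (hG : ∀ X D, D ∈ G X → D ∈ Finset.Icc 1 X ∧ Wide D ∧ P D) : OfOrder P := by
  refine ⟨a, X₀, ha, fun X hX => (h X hX).trans (Nat.cast_le.2 (Finset.card_le_card fun D hD => ?_))⟩
  rw [Finset.mem_filter]
  exact hG X D hD

theorem prop_of {δ : ℝ} {P Q : ℕ → Prop} (h : Run7.h359.LB.Prp δ P) (hPQ : ∀ D, P D ↔ Q D) :
    Proportion δ Q := by
  have e : P = Q := funext fun D => propext (hPQ D)
  subst e
  exact h

theorem pair_of {δ : ℝ} {P Q : ℕ → Prop} (h : Run7.h359.LB.PrB δ P) (hPQ : ∀ D, P D ↔ Q D) :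
    PairProportion δ Q := by
  have e : P = Q := funext fun D => propext (hPQ D)
  subst e
  exact h

end proof

/-- **The Selmer groups of all weights for the full class.** -/
theorem result :
    (∀ (n M : ℕ) (d : Fin n → ℕ), GoodPair M d → SelmerVanish M d) ∧
    (∀ (n M : ℕ) (d : Fin n → ℕ), Wide M → (∀ i, Wide (d i)) → Ind d →
      Proportion (c ^ 2 ^ n) (fun D => GoodPair (M * D) d ∧ SelmerVanish (M * D) d) ∧
      PairProportion (c ^ 2 ^ n / 4)
        (fun N => N % 8 = 1 ∧ GoodPair (M * N) d ∧ SelmerVanish (M * N) d)) ∧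
    (∀ M : ℕ, Wide M → RankZeroShaTwo M → Tower M) ∧
    OfOrder (fun _ => True) ∧ 0.4194 < c ∧ c < 0.4195 := by
  obtain ⟨-, -, -, h4, h5⟩ := Pool.Agent.Results.MP_787500_nt.AllWeightsMultiquadraticX49.result
  refine ⟨fun n M d h => all_of_pair h, fun n M d hM hd hI => ⟨?_, ?_⟩, fun M hM hR => ?_, ?_, h4, h5⟩
  · exact prop_of (Run7.h359.LB.prp_good hM hd hI) fun D => ⟨fun h => ⟨h, all_of_pair h⟩,
      fun h => h.1⟩
  · exact pair_of (Run7.h359.LB.prB_good hM hd hI) fun D =>
      ⟨fun h => ⟨h.1, h.2, all_of_pair h.2⟩, fun h => ⟨h.1, h.2.1⟩⟩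
  · obtain ⟨D, h1, h2⟩ := Run7.h359.TW.exists_tower hM hR
    exact ⟨D, h1, fun n => ⟨(h2 n).1, all_of_pair (h2 n).2⟩⟩
  · have h1 : Wide 1 := ⟨squarefree_one, rfl, fun p hp hp1 => absurd (Nat.dvd_one.1 hp1) hp.one_lt.ne'⟩
    obtain ⟨a, X₀, ha, h⟩ := Run7.h359.CW.cnt_good (d := fun i : Fin 0 => i.elim0) h1 fun i => i.elim0
    refine ofOrder_of ha h fun X D hD => ?_
    rw [Finset.mem_filter] at hD
    exact ⟨hD.1, hD.2.1, trivial⟩

end Pool.Agent.Results.MP_787500_nt.AllWeightsFullClassX49
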