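import Mathlib
import Pool.Agent.Run7.h289.D18.Fn
import Pool.Agent.Run7.h289.D18.Jw
import Pool.Agent.N916.GB.Num
import Pool.Agent.Y655.XT.Shavc
import Pool.Agent.Run7.h424.BK.Mq

/-!
# Bloch–Kato Selmer groups of all elliptic curves with full rational 2-torsion and a cyclic
# 4-isogeny, over all multiquadratic fields

The case `i = 0`, `p = 2` of the problem: for an elliptic curve `W` over a number field `K` the
Abel–Jacobi map is the Kummer map `W(K) ⊗ ℚ_2 → H¹_f(K, V_2 W)`.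

The elliptic curves over `ℚ` with full rational 2-torsion and a rational cyclic subgroup of order
four are, up to isomorphism, the curves `E_{u,v}^D : y² = x (x + u² D) (x + v² D)`, where
`(u, v)` is a pair of coprime nonzero integers with `u² ≠ v²` and `D ≠ 0` is a squarefree integer.

Let `F` be any finite set of triples `(u, v, w)`, where `(u, v)` is a pair and `w = ± 1`, and let
`c 0, ..., c (r-1)` be positive integers, `1` modulo `4`, prime to the odd primes of `u v (u² - v²)`,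
`(u, v, w) ∈ F`, no product of which over a nonempty set of indices is a square. The fields are the
fields `K = ℚ(√c 0, ..., √c (r-1))`, of degree `2 ^ r`. For a set `T` of indices let `c_T` be the
squarefree part of the product of the `c i`, `i` in `T`, and for squarefree `m > 0` let
`D_T = w * part c_T m`, where `part c_T m` is the squarefree part of `c_T m`. So `E_{u,v}^{D_T}` is the
twist of `E_{u,v}^{w m}` by the character `χ_T` of the group of `K` over `ℚ` which belongs to `√c_T`.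

The numbers `m` for which all the `D_T` are admissible (congruence conditions, see `Admissible`) are
counted in the natural order, also those in a class `b` modulo `N` prime to `N`, provided that there
is one; they have positive lower density.

1. For every set `S` of subsets `T` exactly the proportion `η^(#S) (1 - η)^(2^r - #S)` of these
   `m` has the property that for all the curves of `F` at once `E_{u,v}^{D_T}` has finitely many rational
   points and `Ш(E_{u,v}^{D_T}/ℚ)[2^∞] = 0` just for the `T` in `S`. Here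
   `η = ∏ (1 - 2^(-i)) = 0.2888...`.
2. So all the twists have this property for exactly the proportion `η^[K : ℚ]`. For these `m` and
   for all the curves `W = E_{u,v}^{w m}` of `F`: `W(K)` is finite, `Ш(W/K)[2^∞]` is killed by `2^r`,
   both sides of the Abel–Jacobi map over `K` are zero: `W(K) ⊗ ℚ_2 = 0` and `H¹_f(K, V_2 W) = 0`,
   and `H⁰(K, V_2 W) = 0`; and `H¹_f(ℚ, V_2 W ⊗ χ_T) = 0` for all the `T`.
   So the conjecture of the problem holds for `p = 2` and all the curves of `F` over the field `K` of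
   degree `2^r`, and over `ℚ` for the representations induced from all its characters.
3. Each pair with the sign `+` (`u v` odd) or `-` (`u v` even) has admissible numbers; if `c` is
   squarefree, `1` modulo `8` and a nonzero square modulo the odd primes of `u v (u² - v²)`, then
   `w * part c m` is admissible if and only if `w * m` is; there are infinitely many such primes `c`.
   So there are such sets of `m` for all the fields `ℚ(√c 0, ..., √c (r-1))` with such `c i`.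

`H¹_f(K, V_p W)` is `Pool.Agent.Y667.BKP.H1f p W` (file `Pool/Agent/Y667/BKP/Def.lean`): the classes of
the continuous cocycles with values in `V_p(W) = T_p(W) ⊗ ℚ_p` whose restriction to the completion at
every place is in the image of the local Kummer map (which is `H¹_f(K_v, V_p W)`).
-/

set_option autoImplicit false

open Filter Topology

namespace Pool.Agent.Results.MP_787500_nt.FullTorsionMultiquadratic

open Pool.Agent.Y667.BKP (H1f PSeq IsV)
open Pool.Agent.TH841.SH.D (Gal act)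

/-- the curve `E_{u,v}^D : y² = x (x + u² D) (x + v² D)` over `ℚ` -/
def curve (u v D : ℤ) : WeierstrassCurve ℚ :=
  { a₁ := 0, a₂ := (((u ^ 2 + v ^ 2) * D : ℤ) : ℚ), a₃ := 0, a₄ := ((u ^ 2 * v ^ 2 * D ^ 2 : ℤ) : ℚ),
    a₆ := 0 }

/-- the pairs `(u, v)` -/
structure Pair (u v : ℤ) : Prop where
  coprime : IsCoprime u v
  left : u ≠ 0
  right : v ≠ 0
  ne : u ^ 2 ≠ v ^ 2

/-- `D` is admissible for `(u, v)` -/
structure Admissible (u v D : ℤ) : Prop where
  squarefree : Squarefree D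
  three : D.natAbs % 4 = 3
  atUV : ∀ p : ℕ, p.Prime → p ≠ 2 → (p : ℤ) ∣ u * v → ¬ IsSquare (D : ZMod p)
  atDiff : ∀ p : ℕ, p.Prime → p ≠ 2 → (p : ℤ) ∣ u ^ 2 - v ^ 2 → ¬ IsSquare (-(D : ZMod p))
  atTwoPos : 0 < D →
    (u * v % 2 = 1 ∧ (D % 8 = 3 ∨ (u ^ 2 - v ^ 2) % 32 = 16)) ∨ u * v % 4 = 2
  atTwoNeg : D < 0 → (u * v % 2 = 1 ∧ (u ^ 2 - v ^ 2) % 16 = 8) ∨
    (u * v % 2 = 0 ∧ (D.natAbs % 8 = 3 ∨ u * v % 8 = 4))

/-- the triples `t = (u, v, w)`: a pair `(u, v)` and a sign `w = ± 1` -/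
structure Signed (t : ℤ × ℤ × ℤ) : Prop where
  pair : Pair t.1 t.2.1
  sign : t.2.2 = 1 ∨ t.2.2 = -1

/-- the squarefree part of `n`: a squarefree number `a` with `n = b² a` for some `b` -/
noncomputable def sqf (n : ℕ) : ℕ := (Nat.sq_mul_squarefree n).choose

/-- the squarefree part of `a m`, for squarefree `a`, `m` -/
def part (a m : ℕ) : ℕ := a * m / Nat.gcd a m ^ 2

/-- the curve of `t` for the number `m` -/
def cu (t : ℤ × ℤ × ℤ) (m : ℕ) : WeierstrassCurve ℚ := curve t.1 t.2.1 (t.2.2 * m)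

section

variable {r : ℕ} (c : Fin r → ℕ) (F : Finset (ℤ × ℤ × ℤ))

/-- `c_T`, the squarefree part of the product of the `c i` -/
noncomputable def cT (T : Finset (Fin r)) : ℕ := sqf (∏ i ∈ T, c i)

/-- the numbers `c i` and the set of pairs with signs -/
structure Data : Prop where
  one : ∀ i, c i % 4 = 1
  independent : ∀ T : Finset (Fin r), T.Nonempty → ¬ IsSquare (∏ i ∈ T, c i)
  nonempty : F.Nonempty
  signed : ∀ t ∈ F, Signed t
  prime : ∀ i, ∀ t ∈ F, ∀ p : ℕ, p.Prime → p ≠ 2 →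
    (p : ℤ) ∣ t.1 * t.2.1 * (t.1 ^ 2 - t.2.1 ^ 2) → ¬ p ∣ c i

/-- all the numbers `D_T` are admissible -/
def Common (m : ℕ) : Prop :=
  Squarefree m ∧ ∀ T : Finset (Fin r), ∀ t ∈ F, Admissible t.1 t.2.1 (t.2.2 * part (cT c T) m)

/-- `W(ℚ)` is finite and `Ш(W/ℚ)[2^∞] = 0` -/
structure Trivial (W : WeierstrassCurve ℚ) : Prop where
  finite : Finite W.toAffine.Point
  sha : ∀ (n : ℕ) (x : Pool.Agent.TH841.NF.D.Sha W), 2 ^ n • x = 0 → x = 0

/-- all the twists are trivial -/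
def Good (m : ℕ) : Prop :=
  ∀ T : Finset (Fin r), ∀ t ∈ F, Trivial (cu t (part (cT c T) m))

end

/-- `K = ℚ(√c 0, ..., √c (r-1))` -/
structure Generated {r : ℕ} (c : Fin r → ℕ) (K : Type) [Field K] [NumberField K] (ρ : Fin r → K) :
    Prop where
  square : ∀ i, ρ i ^ 2 = (c i : K)
  generates : IntermediateField.adjoin ℚ (Set.range ρ) = ⊤

/-- the group of points is finite, `2^r` kills the 2-primary part of `Ш`, both sides of the Abel–Jacobi
map are zero, and there are no invariants in `V_2 W` -/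
structure BlochKato (r : ℕ) (K : Type) [Field K] [NumberField K] (W : WeierstrassCurve K) :
    Prop where
  finite : Finite W.toAffine.Point
  sha : ∀ (n : ℕ) (x : Pool.Agent.TH841.NF.D.Sha W), 2 ^ n • x = 0 → 2 ^ r • x = 0
  source : open scoped Classical in ∀ x : TensorProduct ℤ W.toAffine.Point ℚ_[2], x = 0
  target : ∀ x : H1f 2 W, x = 0
  invariants : ∀ x : PSeq W, IsV 2 W x →
    (∀ (σ : Gal K) (n : ℕ), act W σ.toAlgHom (x n) = x n) → ∀ n, x n = 0

/-- the number of the `m ≤ X` of the class `C` with the property `Q` -/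
noncomputable def num (C Q : ℕ → Prop) (X : ℕ) : ℕ := Nat.card {m : ℕ // m ≤ X ∧ C m ∧ Q m}

/-- among the numbers of the class `C` exactly the proportion `θ` has the property `Q` -/
def Proportion (C Q : ℕ → Prop) (θ : ℝ) : Prop :=
  Tendsto (fun X : ℕ => (num C Q X : ℝ) / (num C (fun _ => True) X : ℝ)) atTop (𝓝 θ)

/-- the constant `0.2888...` -/
noncomputable def η : ℝ := ∏' i : ℕ, (1 - (1 / 2 : ℝ) ^ (i + 1))

section proof

open Pool.Agent.Run7.h289.D18
open Pool.Agent.Y700 (VR)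

theorem pair_iff {u v : ℤ} : Pair u v ↔ Pr u v :=
  ⟨fun h => ⟨h.1, h.2, h.3, h.4⟩, fun h => ⟨h.1, h.2, h.3, h.4⟩⟩

theorem adm_iff {u v D : ℤ} : Admissible u v D ↔ Ad u v D :=
  ⟨fun h => ⟨h.1, h.2, h.3, h.4, h.5, h.6⟩, fun h => ⟨h.1, h.2, h.3, h.4, h.5, h.6⟩⟩

theorem curve_eq (u v D : ℤ) : curve u v D = Ec u v D := rfl

theorem trivial_iff (W : WeierstrassCurve ℚ) : Trivial W ↔
    (Finite W.toAffine.Point ∧ ∀ (k : ℕ) (x : Pool.Agent.TH841.NF.D.Sha W), 2 ^ k • x = 0 → x = 0) :=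
  ⟨fun h => ⟨h.1, h.2⟩, fun h => ⟨h.1, h.2⟩⟩

theorem signed_iff {t : ℤ × ℤ × ℤ} : Signed t ↔ Tri t :=
  ⟨fun h => ⟨pair_iff.1 h.1, h.2⟩, fun h => ⟨pair_iff.2 h.1, h.2⟩⟩

theorem part_eq (a m : ℕ) : part a m = Pool.Agent.Run7.h238.J.tw a m := rfl

theorem natAbs_sign {t : ℤ × ℤ × ℤ} (h : Signed t) (m : ℕ) : (t.2.2 * (m : ℤ)).natAbs = m := by
  rcases h.sign with e | e
  · rw [e, one_mul, Int.natAbs_natCast]
  · rw [e, neg_one_mul, Int.natAbs_neg, Int.natAbs_natCast]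

theorem sqf_spec (n : ℕ) : Squarefree (sqf n) ∧ ∃ b, b ^ 2 * sqf n = n := by
  obtain ⟨b, h1, h2⟩ := (Nat.sq_mul_squarefree n).choose_spec
  exact ⟨h2, b, h1⟩

theorem one_core {t : ℤ × ℤ × ℤ} (ht : Signed t) {m : ℕ}
    (h : Admissible t.1 t.2.1 (t.2.2 * m)) : Trivial (cu t m) ↔ Nf m = 2 ^ (0 + 1) := by
  obtain ⟨k, h1, -, -, -, -, h2⟩ := corank (pair_iff.1 ht.pair) (adm_iff.1 h)
  rw [natAbs_sign ht] at h1
  unfold cu
  rw [trivial_iff, curve_eq, h2, h1]
  constructor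
  · rintro rfl
    rfl
  · intro h3
    have := Nat.pow_right_injective le_rfl h3
    omega

section

variable {r : ℕ} {c : Fin r → ℕ} {F : Finset (ℤ × ℤ × ℤ)} {N b : ℕ}

/-- the numbering of the subsets -/
noncomputable def en (r : ℕ) : Fin (2 ^ r) ≃ Finset (Fin r) :=
  (Fintype.equivFinOfCardEq (by rw [Fintype.card_finset, Fintype.card_fin])).symm

/-- the multipliers -/
noncomputable def mu (c : Fin r → ℕ) (j : Fin (2 ^ r)) : ℕ := cT c (en r j)

theorem Data.prod_ne (h : Data c F) (T : Finset (Fin r)) : ∏ i ∈ T, c i ≠ 0 := by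
  rw [Finset.prod_ne_zero_iff]
  intro i _ h0
  have := h.one i
  omega

theorem Data.prod_one (h : Data c F) (T : Finset (Fin r)) : (∏ i ∈ T, c i) % 4 = 1 := by
  induction T using Finset.induction_on with
  | empty => rfl
  | insert i T hi ih => rw [Finset.prod_insert hi, Nat.mul_mod, h.one i, ih]

theorem Data.cT_one (h : Data c F) (T : Finset (Fin r)) : cT c T % 4 = 1 := by
  obtain ⟨-, b, hb⟩ := sqf_spec (∏ i ∈ T, c i)
  have h1 := h.prod_one T
  rw [← hb, Nat.mul_mod, Nat.pow_mod] at h1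
  unfold cT
  have h2 : b % 4 < 4 := Nat.mod_lt _ (by norm_num)
  have h3 : sqf (∏ i ∈ T, c i) % 4 < 4 := Nat.mod_lt _ (by norm_num)
  generalize b % 4 = x at h1 h2
  generalize sqf (∏ i ∈ T, c i) % 4 = y at h1 h3 ⊢
  interval_cases x <;> interval_cases y <;> simp_all

theorem Data.cT_inj (h : Data c F) : Function.Injective (cT c) := by
  intro T T' hT
  by_contra hne
  have h1 : (symmDiff T T').Nonempty := by
    rw [Finset.nonempty_iff_ne_empty]
    intro h2
    exact hne (symmDiff_eq_bot.1 h2)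
  refine h.independent _ h1 ?_
  obtain ⟨-, b, hb⟩ := sqf_spec (∏ i ∈ T, c i)
  obtain ⟨-, b', hb'⟩ := sqf_spec (∏ i ∈ T', c i)
  have e1 : sqf (∏ i ∈ T, c i) = sqf (∏ i ∈ T', c i) := hT
  have h2 : (∏ i ∈ T, c i) * ∏ i ∈ T', c i =
      (∏ i ∈ symmDiff T T', c i) * (∏ i ∈ T ∩ T', c i) ^ 2 := by
    have h1 : ∏ l ∈ T, c l = (∏ l ∈ T \ T', c l) * ∏ l ∈ T ∩ T', c l := by
      rw [← Finset.prod_union (Finset.disjoint_sdiff_inter T T'), Finset.sdiff_union_inter]
    have h2 : ∏ l ∈ T', c l = (∏ l ∈ T' \ T, c l) * ∏ l ∈ T ∩ T', c l := by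
      rw [Finset.inter_comm, ← Finset.prod_union (Finset.disjoint_sdiff_inter T' T),
        Finset.sdiff_union_inter]
    have h3 : ∏ l ∈ symmDiff T T', c l = (∏ l ∈ T \ T', c l) * ∏ l ∈ T' \ T, c l := by
      have h4 : symmDiff T T' = (T \ T') ∪ (T' \ T) := rfl
      rw [h4, Finset.prod_union]
      exact disjoint_sdiff_sdiff
    rw [h1, h2, h3]
    ring
  have h3 : (b * b' * sqf (∏ i ∈ T', c i)) ^ 2 =
      (∏ i ∈ symmDiff T T', c i) * (∏ i ∈ T ∩ T', c i) ^ 2 := by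
    rw [← h2]
    conv_rhs => rw [← hb, ← hb', e1]
    ring
  have h4 : (∏ i ∈ T ∩ T', c i) ∣ b * b' * sqf (∏ i ∈ T', c i) := by
    rw [← Nat.pow_dvd_pow_iff two_ne_zero, h3]
    exact Dvd.intro_left _ rfl
  obtain ⟨s, hs⟩ := h4
  refine ⟨s, ?_⟩
  rw [hs, mul_pow, mul_comm] at h3
  have h5 := mul_right_cancel₀ (pow_ne_zero 2 (h.prod_ne (T ∩ T'))) h3
  rw [← h5]
  ring

theorem Data.hyp (h : Data c F) : Hyp (mu c) (fun _ => F) where
  inj := h.cT_inj.comp (en r).injective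
  sqf := fun j => (sqf_spec _).1
  one := fun j => h.cT_one _
  tri := fun _ t ht => signed_iff.1 (h.signed t ht)
  ne := fun _ => h.nonempty
  gm := by
    intro j t ht p hp hp2 hd hdv
    obtain ⟨-, b, hb⟩ := sqf_spec (∏ i ∈ en r j, c i)
    have h1 : p ∣ ∏ i ∈ en r j, c i := by
      rw [← hb]
      exact Dvd.dvd.mul_left hdv _
    obtain ⟨i, -, h2⟩ := (Prime.dvd_finsetProd_iff hp.prime _).1 h1
    exact h.prime i t ht p hp hp2 hd h2
  pos := by positivity

theorem common_iff {m : ℕ} : Common c F m ↔ CmJ (mu c) (fun _ => F) m := by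
  refine and_congr_right fun _ => ?_
  constructor
  · intro h j t ht
    exact adm_iff.1 (h (en r j) t ht)
  · intro h T t ht
    have := h ((en r).symm T) t ht
    unfold mu at this
    rw [Equiv.apply_symm_apply] at this
    exact adm_iff.2 this

theorem card_filter_en (S : Finset (Finset (Fin r))) : (S.map (en r).symm.toEmbedding).card = S.card :=
  Finset.card_map _

theorem patterns (h : Data c F) (hN : 0 < N) (hbc : b.Coprime N)
    (hex : ∃ m, Common c F m ∧ m % N = b) (S : Finset (Finset (Fin r))) :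
    Proportion (fun m => Common c F m ∧ m % N = b)
      (fun m => ∀ T, ∀ t ∈ F, (Trivial (cu t (part (cT c T) m)) ↔ T ∈ S))
      (η ^ S.card * (1 - η) ^ (2 ^ r - S.card)) := by
  have e : η = Run7.h843.L.gk 0 := by
    have h0 : Run7.h843.L.gk 0 = η / (2 ^ (0 ^ 2) *
        (∏ i ∈ Finset.range 0, (1 - (1 / 2 : ℝ) ^ (i + 1))) ^ 2) := by
      rw [Run7.h843.L.gk_eq]
      rfl
    rw [h0]
    simp
  have h1 := law_set h.hyp hN hbc (hex.imp fun m hm => ⟨common_iff.1 hm.1, hm.2⟩)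
    {k : Fin (2 ^ r) → ℕ | ∀ i, k i = 0 ↔ i ∈ S.map (en r).symm.toEmbedding}
  rw [tsum_pat, ← e, card_filter_en] at h1
  refine Prp.congr (fun m => and_congr_left fun _ => common_iff.symm) (fun m hm => ?_) h1
  have hC : Common c F m := common_iff.2 hm.1
  have hmem : ∀ j, (j ∈ S.map (en r).symm.toEmbedding ↔ en r j ∈ S) := by
    intro j
    rw [Finset.mem_map_equiv]
    rfl
  have key : ∀ j, ∀ t ∈ F, (Trivial (cu t (part (cT c (en r j)) m)) ↔
      Nf (Pool.Agent.Run7.h238.J.tw (mu c j) m) = 2 ^ (0 + 1)) := fun j t ht =>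
    one_core (h.signed t ht) (hC.2 _ t ht)
  constructor
  · rintro ⟨k, hk, hk'⟩ T t ht
    have h2 := key ((en r).symm T) t ht
    rw [Equiv.apply_symm_apply, hk' ((en r).symm T)] at h2
    rw [h2]
    have h3 := hk ((en r).symm T)
    rw [hmem, Equiv.apply_symm_apply] at h3
    rw [← h3]
    constructor
    · intro h4
      have := Nat.pow_right_injective le_rfl h4
      omega
    · intro h4
      rw [h4]
  · intro h2
    obtain ⟨t, ht⟩ := h.nonempty
    have hpow : ∀ j, ∃ k : ℕ, Nf (Pool.Agent.Run7.h238.J.tw (mu c j) m) = 2 ^ (k + 1) := by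
      intro j
      obtain ⟨k, h3, -⟩ := corank (pair_iff.1 (h.signed t ht).pair)
        (adm_iff.1 (hC.2 (en r j) t ht))
      rw [natAbs_sign (h.signed t ht)] at h3
      exact ⟨k, h3⟩
    choose k hk using hpow
    refine ⟨k, fun j => ?_, hk⟩
    rw [hmem, ← h2 _ t ht, key j t ht, hk j]
    constructor
    · intro h4
      rw [h4]
    · intro h4
      have := Nat.pow_right_injective le_rfl h4
      omega

theorem low (h : Data c F) (hN : 0 < N) (hbc : b.Coprime N)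
    (hex : ∃ m, Common c F m ∧ m % N = b) :
    ∃ α : ℝ, 0 < α ∧ ∀ᶠ X : ℕ in atTop,
      α * X ≤ (num (fun m => Common c F m ∧ m % N = b) (fun _ => True) X : ℝ) := by
  obtain ⟨α, hα, h1⟩ := lowJ h.hyp hN hbc (hex.imp fun m hm => ⟨common_iff.1 hm.1, hm.2⟩)
  refine ⟨α, hα, h1.mono fun X hX => ?_⟩
  have e : num (fun m => Common c F m ∧ m % N = b) (fun _ => True) X =
      nm (fun m => CmJ (mu c) (fun _ => F) m ∧ m % N = b) (fun _ => True) X :=
    nm_congr (fun m => and_congr_left fun _ => common_iff) (fun _ _ => Iff.rfl) X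
  rwa [e]

theorem prop_congr {C Q Q' : ℕ → Prop} {θ : ℝ} (h : ∀ m, C m → (Q m ↔ Q' m))
    (h1 : Proportion C Q θ) : Proportion C Q' θ :=
  Prp.congr (fun _ => Iff.rfl) h h1

theorem good (h : Data c F) (hN : 0 < N) (hbc : b.Coprime N)
    (hex : ∃ m, Common c F m ∧ m % N = b) :
    Proportion (fun m => Common c F m ∧ m % N = b) (Good c F) (η ^ 2 ^ r) := by
  have h1 := patterns h hN hbc hex Finset.univ
  rw [Finset.card_univ, Fintype.card_finset, Fintype.card_fin, Nat.sub_self, pow_zero,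
    mul_one] at h1
  refine prop_congr (fun m _ => ?_) h1
  exact forall_congr' fun T => forall_congr' fun t => forall_congr' fun ht =>
    iff_true_right (Finset.mem_univ T)

end

theorem triv_VR {W W' : WeierstrassCurve ℚ} {u r s t : ℚ} (h : VR W W' u r s t) (hD : W'.Δ ≠ 0)
    (h1 : Trivial W') : Trivial W := by
  classical
  have e := h.equiv hD
  have f := (Pool.Agent.Y655.XT.isoVR h hD).sha
  have h2 := h1.1
  refine ⟨Finite.of_equiv _ e.toEquiv, fun k x hx => ?_⟩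
  have h3 := h1.2 k (f.symm x) (by rw [← map_nsmul, hx, map_zero])
  rwa [AddEquiv.map_eq_zero_iff] at h3

theorem delta {u v D : ℤ} (h : Pair u v) (hD : D ≠ 0) : (curve u v D).Δ ≠ 0 := by
  have e : (curve u v D).Δ = 16 * (u ^ 2 * v ^ 2 * D ^ 2 : ℚ) ^ 2 *
      (((u ^ 2 - v ^ 2 : ℤ) : ℚ) * D) ^ 2 := by
    unfold curve
    simp only [WeierstrassCurve.Δ, WeierstrassCurve.b₂, WeierstrassCurve.b₄, WeierstrassCurve.b₆,
      WeierstrassCurve.b₈]
    push_cast
    ring
  rw [e]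
  have h1 : (u : ℚ) ≠ 0 := Int.cast_ne_zero.2 h.left
  have h2 : (v : ℚ) ≠ 0 := Int.cast_ne_zero.2 h.right
  have h3 : (D : ℚ) ≠ 0 := Int.cast_ne_zero.2 hD
  have h4 : (((u ^ 2 - v ^ 2 : ℤ) : ℚ)) ≠ 0 := Int.cast_ne_zero.2 (sub_ne_zero.2 h.ne)
  positivity

section

variable {r : ℕ} {c : Fin r → ℕ} {F : Finset (ℤ × ℤ × ℤ)}

/-- the twist over `ℚ` by the product of the `c i` -/
theorem triv_tw (h : Data c F) {m : ℕ} (hm : Squarefree m) (hg : Good c F m)
    (T : Finset (Fin r)) {t : ℤ × ℤ × ℤ} (ht : t ∈ F) :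
    Trivial (Pool.Agent.TH841.NF.tw (∏ i ∈ T, (c i : ℚ)) (cu t m)) := by
  obtain ⟨h1, b, hb⟩ := sqf_spec (∏ i ∈ T, c i)
  have h2 := (Pool.Agent.Run7.h424.J.tw_spec h1 hm).2.2
  have hp := part_eq (sqf (∏ i ∈ T, c i)) m
  rw [← hp] at h2
  have h3 : (part (cT c T) m * (Nat.gcd (sqf (∏ i ∈ T, c i)) m * b) ^ 2 : ℕ) =
      m * ∏ i ∈ T, c i := by
    have e : part (cT c T) m = part (sqf (∏ i ∈ T, c i)) m := rfl
    rw [e]
    calc part (sqf (∏ i ∈ T, c i)) m * (Nat.gcd (sqf (∏ i ∈ T, c i)) m * b) ^ 2 =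
        (part (sqf (∏ i ∈ T, c i)) m * Nat.gcd (sqf (∏ i ∈ T, c i)) m ^ 2) * b ^ 2 := by ring
      _ = m * (b ^ 2 * sqf (∏ i ∈ T, c i)) := by rw [h2]; ring
      _ = _ := by rw [hb]
  have h4 : ((part (cT c T) m : ℕ) : ℚ) * (((Nat.gcd (sqf (∏ i ∈ T, c i)) m * b : ℕ)) : ℚ) ^ 2 =
      m * ∏ i ∈ T, (c i : ℚ) := by
    exact_mod_cast h3
  have hne : m * ∏ i ∈ T, c i ≠ 0 := mul_ne_zero hm.ne_zero (h.prod_ne T)
  have hs0 : ((Nat.gcd (sqf (∏ i ∈ T, c i)) m * b : ℕ) : ℚ) ≠ 0 := by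
    rw [Nat.cast_ne_zero]
    intro h5
    rw [h5] at h3
    exact hne (by rw [← h3]; ring)
  have hp0 : part (cT c T) m ≠ 0 := by
    intro h5
    rw [h5] at h3
    exact hne (by rw [← h3]; ring)
  have hst := h.signed t ht
  have hV : VR (Pool.Agent.TH841.NF.tw (∏ i ∈ T, (c i : ℚ)) (cu t m)) (cu t (part (cT c T) m))
      ((Nat.gcd (sqf (∏ i ∈ T, c i)) m * b : ℕ) : ℚ) 0 0 0 := by
    generalize ((Nat.gcd (sqf (∏ i ∈ T, c i)) m * b : ℕ) : ℚ) = s at h4 hs0
    refine ⟨hs0, ?_, ?_, ?_, ?_, ?_⟩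
    · simp [Pool.Agent.TH841.NF.tw, cu, curve]
    · simp only [Pool.Agent.TH841.NF.tw, cu, curve]
      push_cast
      linear_combination ((t.1 : ℚ) ^ 2 + (t.2.1 : ℚ) ^ 2) * t.2.2 * h4
    · simp [Pool.Agent.TH841.NF.tw, cu, curve]
    · simp only [Pool.Agent.TH841.NF.tw, cu, curve]
      push_cast
      linear_combination (t.1 : ℚ) ^ 2 * (t.2.1 : ℚ) ^ 2 * (t.2.2 : ℚ) ^ 2 *
        (((part (cT c T) m : ℕ) : ℚ) * s ^ 2 + m * ∏ i ∈ T, (c i : ℚ)) * h4
    · simp [Pool.Agent.TH841.NF.tw, cu, curve]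
  refine triv_VR hV (delta hst.pair ?_) (hg T t ht)
  rcases hst.sign with h5 | h5 <;> rw [h5] <;> simpa using hp0

theorem bk (h : Data c F) {m : ℕ} (hm : Squarefree m) (hg : Good c F m) {t : ℤ × ℤ × ℤ}
    (ht : t ∈ F) (K : Type) [Field K] [NumberField K] (ρ : Fin r → K) (hρ : Generated c K ρ) :
    BlochKato r K ((cu t m).map (algebraMap ℚ K)) := by
  have hT := fun T => triv_tw h hm hg T ht
  have hW : Pool.Agent.TH841.NF.Sc (algebraMap ℚ K) 1 (cu t m) ((cu t m).map (algebraMap ℚ K)) := by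
    refine ⟨one_ne_zero, ?_, ?_, ?_, ?_, ?_⟩ <;> simp
  have h1 := Pool.Agent.Run7.h424.BK.bk_mq (d := fun i => (c i : ℚ))
    (fun i => by rw [hρ.square i, map_natCast]) (fun i => by
      rw [Nat.cast_ne_zero]
      intro h0
      have := h.one i
      omega) hρ.generates hW rfl rfl (fun T => (hT T).1) (fun T => (hT T).2)
  obtain ⟨h2, h3, h4, h5⟩ := h1
  refine ⟨h2, h3, ?_, h4, h5⟩
  classical
  exact fun x => Pool.Agent.Y667.BKP.tensor_zero 2 x

theorem bkQ {W : WeierstrassCurve ℚ} (h : Trivial W) : ∀ x : H1f 2 W, x = 0 :=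
  Pool.Agent.Y667.BKP.h1f_zero Nat.prime_two h.1 0 fun k x hx => by
    rw [h.2 k x hx, smul_zero]

theorem mult {u v w : ℤ} (hw : w = 1 ∨ w = -1) {a m : ℕ} (ha : Squarefree a)
    (hm : Squarefree m) (h8 : a % 8 = 1)
    (hsq : ∀ p : ℕ, p.Prime → p ≠ 2 → (p : ℤ) ∣ u * v * (u ^ 2 - v ^ 2) →
      IsSquare (a : ZMod p) ∧ ¬ p ∣ a) :
    Admissible u v (w * part a m) ↔ Admissible u v (w * m) := by
  rw [adm_iff, adm_iff, part_eq]
  exact ad_mul hw ha hm h8 hsq

theorem primes {u v : ℤ} (h : Pair u v) (n : ℕ) : ∃ a : ℕ, n < a ∧ a.Prime ∧ a % 8 = 1 ∧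
    ∀ p : ℕ, p.Prime → p ≠ 2 → (p : ℤ) ∣ u * v * (u ^ 2 - v ^ 2) →
      IsSquare (a : ZMod p) ∧ ¬ p ∣ a := by
  have hne : u * v * (u ^ 2 - v ^ 2) ≠ 0 :=
    mul_ne_zero (mul_ne_zero h.left h.right) (sub_ne_zero.2 h.ne)
  have hk : 8 * (u * v * (u ^ 2 - v ^ 2)).natAbs ≠ 0 :=
    mul_ne_zero (by norm_num) (Int.natAbs_ne_zero.2 hne)
  obtain ⟨a, ha, hn, h1⟩ := Nat.exists_prime_gt_modEq_one n hk
  refine ⟨a, hn, ha, ?_, fun p hp hp2 hd => ?_⟩
  · exact h1.of_dvd (Dvd.intro _ rfl)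
  · have h2 : a ≡ 1 [MOD p] := h1.of_dvd ((Int.natCast_dvd.1 hd).mul_left 8)
    have : Fact p.Prime := ⟨hp⟩
    have h3 : (a : ZMod p) = 1 := by
      have := (ZMod.natCast_eq_natCast_iff a 1 p).2 h2
      rwa [Nat.cast_one] at this
    refine ⟨by rw [h3]; exact ⟨1, (mul_one 1).symm⟩, fun hd' => ?_⟩
    have h4 := (ZMod.natCast_eq_zero_iff a p).2 hd'
    rw [h3] at h4
    exact one_ne_zero h4

end

end proof

/-- **Bloch–Kato Selmer groups over multiquadratic fields of all elliptic curves with full rational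
2-torsion and a cyclic 4-isogeny.** -/
theorem result :
    (∀ (r : ℕ) (c : Fin r → ℕ) (F : Finset (ℤ × ℤ × ℤ)), Data c F → ∀ N b : ℕ, 0 < N →
      b.Coprime N → (∃ m, Common c F m ∧ m % N = b) →
      (∀ S : Finset (Finset (Fin r)), Proportion (fun m => Common c F m ∧ m % N = b)
        (fun m => ∀ T, ∀ t ∈ F, (Trivial (cu t (part (cT c T) m)) ↔ T ∈ S))
        (η ^ S.card * (1 - η) ^ (2 ^ r - S.card))) ∧
      Proportion (fun m => Common c F m ∧ m % N = b) (Good c F) (η ^ 2 ^ r) ∧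
      (∃ α : ℝ, 0 < α ∧ ∀ᶠ X : ℕ in atTop,
        α * X ≤ (num (fun m => Common c F m ∧ m % N = b) (fun _ => True) X : ℝ)) ∧
      ∀ m, Common c F m → Good c F m → ∀ t ∈ F,
        (∀ (K : Type) [Field K] [NumberField K] (ρ : Fin r → K), Generated c K ρ →
          BlochKato r K ((cu t m).map (algebraMap ℚ K))) ∧
        ∀ T : Finset (Fin r), ∀ x : H1f 2 (cu t (part (cT c T) m)), x = 0) ∧
    -- existence
    (∀ u v w : ℤ, Pair u v → ((w = 1 ∧ u * v % 2 = 1) ∨ (w = -1 ∧ u * v % 2 = 0)) →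
      ∃ m : ℕ, Admissible u v (w * m)) ∧
    (∀ u v : ℤ, Pair u v →
      (∀ (w : ℤ) (a m : ℕ), (w = 1 ∨ w = -1) → Squarefree a → Squarefree m → a % 8 = 1 →
        (∀ p : ℕ, p.Prime → p ≠ 2 → (p : ℤ) ∣ u * v * (u ^ 2 - v ^ 2) →
          IsSquare (a : ZMod p) ∧ ¬ p ∣ a) →
        (Admissible u v (w * part a m) ↔ Admissible u v (w * m))) ∧
      ∀ n : ℕ, ∃ a : ℕ, n < a ∧ a.Prime ∧ a % 8 = 1 ∧
        ∀ p : ℕ, p.Prime → p ≠ 2 → (p : ℤ) ∣ u * v * (u ^ 2 - v ^ 2) →
          IsSquare (a : ZMod p) ∧ ¬ p ∣ a) ∧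
    0.2887 < η ∧ η < 0.2889 := by
  refine ⟨fun r c F h N b hN hbc hex => ⟨patterns h hN hbc hex, good h hN hbc hex,
    low h hN hbc hex, fun m hm hg t ht => ⟨fun K _ _ ρ hρ => bk h hm.1 hg ht K ρ hρ,
      fun T => bkQ (hg T t ht)⟩⟩, ?_,
    fun u v h => ⟨fun w a m hw ha hm h8 hsq => mult hw ha hm h8 hsq, primes h⟩,
    Pool.Agent.N916.GB.eta_bounds.1, Pool.Agent.N916.GB.eta_bounds.2⟩
  intro u v w h hw
  obtain ⟨m, -, hm⟩ := Pool.Agent.Run7.h289.D18.exists_adm (pair_iff.1 h) hw 0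
  have h1 := hm 0 le_rfl
  rw [pow_zero, pow_one, pow_one] at h1
  exact ⟨m, adm_iff.2 h1⟩

end Pool.Agent.Results.MP_787500_nt.FullTorsionMultiquadratic
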