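import Mathlib
import Pool.Agent.Run7.h318.BK.U2
import Pool.Agent.Run7.h318.BK.P1
import Pool.Agent.Run7.h318.BK.F2

/-!
# The moments of the size of the Bloch–Kato Selmer groups `H¹_f(ℚ, V_2 E)`

For an elliptic curve `W` over `ℚ` and a prime `p`, `H1f p W` (`Pool/Agent/Run7/h318/BK/Def.lean`) is
the Bloch–Kato Selmer group `H¹_f(ℚ, V_p(W))`, a vector space over `ℚ_p`: the classes of the
continuous cocycles of the absolute Galois group of `ℚ` with values in `V_p(W) = T_p(W) ⊗ ℚ_p` whose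
restriction to every `ℚ_l` is in `H¹_f(ℚ_l, V_p(W))`. This is the case `i = 0`, `K = ℚ`, `X = W` of
the problem. `ajImage p W` is the image of the Abel–Jacobi (Kummer) map
`W(ℚ) ⊗ ℚ_p → H¹_f(ℚ, V_p(W))`, which is conjectured to be everything; `codim p W` is its
codimension.

Let `p = 2`. For the elliptic curves `W` over `ℚ` with full rational 2-torsion the space
`H¹_f(ℚ, V_2(W))` has finite dimension, and the number `2 ^ dim H¹_f(ℚ, V_2(W))` (in particular the
number `2 ^ codim`) has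
1. a bounded second moment over the curves `y² = x (x - a) (x - b)`, `(a, b)` in a square of side
   `H`, uniformly over all the squares whose distance from the origin is at most a power of `H`;
2. a bounded second moment over all the elliptic curves over `ℚ` with full rational 2-torsion,
   ordered by height;
3. bounded moments of all orders for (products of) quadratic twists by the values of polynomials;
4. bounded moments of order `δ` in the families `y² = x (x - A(t)) (x - B(t))`, `A`, `B` polynomials,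
   under a condition on the numbers of places of multiplicative reduction.

The counting of the local conditions is the one of helper69 (`Pool/Agent/Run7/h69`, used there for
the rank).
-/

set_option autoImplicit false

namespace Pool.Agent.Results.MP_787500_nt.MomentsOfBlochKatoSelmer

open Finset Filter Polynomial UniqueFactorizationMonoid

open Run7.h318.BK (H1f dimH1f ajImage codim QQ)

open scoped Classical

/-- `H¹_f(ℚ, V_2(W))` has finite dimension, which is the sum of the dimension and the codimension of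
the image of the Abel–Jacobi map -/
def Fin2 (W : WeierstrassCurve ℚ) : Prop :=
  Module.Finite ℚ_[2] (H1f 2 W) ∧ codim 2 W + Module.finrank ℚ_[2] (ajImage 2 W) = dimH1f 2 W

/-- `2 ^ dim H¹_f(ℚ, V_2(W))` -/
noncomputable def size (W : WeierstrassCurve ℚ) : ℕ := 2 ^ dimH1f 2 W

/-! ### The families -/

/-- the curve `y² = x (x - a) (x - b)` over `ℚ` -/
def E (a b : ℤ) : WeierstrassCurve ℚ := ⟨0, -((a : ℚ) + b), 0, (a : ℚ) * b, 0⟩

/-- the pairs `(a, b)` with `x < a ≤ x + H`, `y < b ≤ y + H`, `a b (a - b) ≠ 0` -/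
noncomputable def Square (x y : ℤ) (H : ℕ) : Finset (ℤ × ℤ) :=
  ((Ioc x (x + H)) ×ˢ (Ioc y (y + H))).filter (fun t => t.1 ≠ 0 ∧ t.2 ≠ 0 ∧ t.1 ≠ t.2)

/-- the curve `y² = x³ + A x + B` over `ℚ` -/
def Es (A B : ℤ) : WeierstrassCurve ℚ := ⟨0, 0, 0, (A : ℚ), (B : ℚ)⟩

/-- The pair `(A, B)` of integers satisfies: `4 A³ + 27 B² ≠ 0`, there is no prime `p` with `p⁴ ∣ A`
and `p⁶ ∣ B`, the height `max (4 |A|³) (27 B²)` is at most `H`, and `Z/2 x Z/2` embeds in the group of
the rational points of `y² = x³ + A x + B`. (Every elliptic curve over `ℚ` is isomorphic to `Es A B`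
for exactly one pair with the first two properties.) -/
def InFam (H : ℕ) (c : ℤ × ℤ) : Prop :=
  4 * c.1 ^ 3 + 27 * c.2 ^ 2 ≠ 0 ∧ 4 * |c.1| ^ 3 ≤ H ∧ 27 * c.2 ^ 2 ≤ H ∧
    (∀ p : ℕ, p.Prime → ¬ ((p : ℤ) ^ 4 ∣ c.1 ∧ (p : ℤ) ^ 6 ∣ c.2)) ∧
    ∃ f : ZMod 2 × ZMod 2 →+ (Es c.1 c.2).toAffine.Point, Function.Injective f

/-- The finite set of these pairs. (The bounds `|A|, |B| ≤ H` follow from the bound of the height.) -/
noncomputable def Fam (H : ℕ) : Finset (ℤ × ℤ) :=
  ((Icc (-(H : ℤ)) H) ×ˢ (Icc (-(H : ℤ)) H)).filter (InFam H)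

/-- a polynomial with integer coefficients as a polynomial over `ℚ` -/
noncomputable abbrev toQ (F : ℤ[X]) : ℚ[X] := F.map (Int.castRingHom ℚ)

/-- the three differences of the roots `0`, `A`, `B` -/
noncomputable def diff (A B : ℤ[X]) (c : Fin 3) : ℤ[X] :=
  if c = 0 then A else if c = 1 then B else A - B

/-- the reduction at a zero of `diff A B c` is split if the value of `gam A B c` is a square -/
noncomputable def gam (A B : ℤ[X]) (c : Fin 3) : ℤ[X] :=
  if c = 0 then -B else if c = 1 then -A else A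

/-- the monic irreducible factors over `ℚ` of `diff A B c` that do not divide the two others -/
noncomputable def mult (A B : ℤ[X]) (c : Fin 3) : Finset ℚ[X] :=
  (normalizedFactors (toQ (diff A B c))).toFinset.filter (fun q => ¬ q ∣ toQ (diff A B (c + 1)))

/-- their number -/
noncomputable def n (A B : ℤ[X]) (c : Fin 3) : ℕ := (mult A B c).card

/-- the number of those modulo which `gam A B c` is a square -/
noncomputable def m (A B : ℤ[X]) (c : Fin 3) : ℕ :=
  ((mult A B c).filter (fun q => ∃ s : ℚ[X], q ∣ toQ (gam A B c) - s ^ 2)).card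

/-! ### The statements -/

/-- the second moment is bounded on the squares of the parameters -/
def Squares : Prop := ∀ ε : ℝ, 0 < ε → ∃ C : ℝ, ∀ (x y : ℤ) (H : ℕ), 1 ≤ H → |(x : ℝ)| ^ ε ≤ H →
  |(y : ℝ)| ^ ε ≤ H → ∑ t ∈ Square x y H, (size (E t.1 t.2) : ℝ) ^ 2 ≤ C * (H : ℝ) ^ 2

/-- the second moment by height is bounded -/
def ByHeight : Prop := ∃ C : ℝ, ∀ H : ℕ,
  ∑ c ∈ Fam H, (size (Es c.1 c.2) : ℝ) ^ 2 ≤ C * (Fam H).card

/-- all the moments are bounded for the products of the twists of the curves `E (a i) (b i)` by the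
values of the polynomials `f i`; `H¹_f` of a product is the direct sum of the `H¹_f`, so that
`∏ i, size _` is `2 ^ dim H¹_f` for the product of the twists -/
def Twists : Prop := ∀ (r : ℕ) (a b : Fin r → ℤ), (∀ i, a i ≠ 0) → (∀ i, b i ≠ 0) →
  (∀ i, a i ≠ b i) → ∀ (f : Fin r → ℤ[X]) (k : ℕ) (ε : ℝ), 0 < ε → ∃ C : ℝ, ∀ (x : ℤ) (H : ℕ),
    1 ≤ H → |(x : ℝ)| ^ ε ≤ H → ∑ t ∈ (Ioc x (x + H)).filter (fun t => ∀ i, (f i).eval t ≠ 0),
      (∏ i, (size (E (a i * (f i).eval t) (b i * (f i).eval t)) : ℝ)) ^ k ≤ C * H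

/-- the moments of order `δ` in the families `y² = x (x - A(t)) (x - B(t))` -/
def Families : Prop := ∀ A B : ℤ[X], (∀ c, Squarefree (toQ (diff A B c))) → ∀ δ : ℝ, 0 < δ →
  δ ≤ 1 → (∀ c : Fin 3, (2 : ℝ) ^ δ * (n A B c + m A B c) ≤ 2 * (n A B (c + 1) + n A B (c + 2))) →
    ∀ ε : ℝ, 0 < ε → ∃ C : ℝ, ∀ (x : ℤ) (H : ℕ), 1 ≤ H → |(x : ℝ)| ^ ε ≤ H →
      ∑ t ∈ (Ioc x (x + H)).filter (fun t => A.eval t ≠ 0 ∧ B.eval t ≠ 0 ∧ A.eval t ≠ B.eval t),
        (size (E (A.eval t) (B.eval t)) : ℝ) ^ δ ≤ C * H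

section proof

lemma size_E (A B : ℤ) : size (E A B) = QQ (Pool.Agent.W262.SH.E A B) := rfl

lemma size_Es (A B : ℤ) : size (Es A B) = QQ (Pool.Agent.W307.RT.Sh A B) := rfl

lemma Fam_eq (H : ℕ) : Fam H = Pool.Agent.W307.RT.Cv 2 H := by
  ext c
  have h : Pool.Agent.W307.RT.HasT 2 (Pool.Agent.W307.RT.Sh c.1 c.2) ↔
      ∃ f : ZMod 2 × ZMod 2 →+ (Es c.1 c.2).toAffine.Point, Function.Injective f :=
    Pool.Agent.W307.RT.tors_iff
  unfold Fam Pool.Agent.W307.RT.Cv
  rw [mem_filter, mem_filter, h]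
  rfl

lemma fin2_of {W : WeierstrassCurve ℚ} (h : Module.Finite ℚ_[2] (H1f 2 W)) : Fin2 W :=
  ⟨h, Submodule.finrank_quotient_add_finrank (ajImage 2 W)⟩

lemma nat_of {ε : ℝ} (hε : 0 < ε) {x : ℤ} {H : ℕ} (hH : 1 ≤ H) (hx : |(x : ℝ)| ^ ε ≤ H) :
    x.natAbs ≤ H ^ ⌈1 / ε⌉₊ := by
  have hHr : (1 : ℝ) ≤ H := by exact_mod_cast hH
  have h2 : |(x : ℝ)| ≤ (H : ℝ) ^ (⌈1 / ε⌉₊ : ℝ) := by
    calc |(x : ℝ)| = (|(x : ℝ)| ^ ε) ^ (1 / ε) := by
          rw [← Real.rpow_mul (abs_nonneg _), mul_one_div_cancel hε.ne', Real.rpow_one]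
      _ ≤ (H : ℝ) ^ (1 / ε) := Real.rpow_le_rpow (by positivity) hx (by positivity)
      _ ≤ (H : ℝ) ^ (⌈1 / ε⌉₊ : ℝ) := Real.rpow_le_rpow_of_exponent_le hHr (Nat.le_ceil _)
  rw [Real.rpow_natCast] at h2
  have h3 : ((x.natAbs : ℕ) : ℝ) = |(x : ℝ)| := by
    rw [Nat.cast_natAbs, Int.cast_abs]
  have h4 : ((x.natAbs : ℕ) : ℝ) ≤ ((H ^ ⌈1 / ε⌉₊ : ℕ) : ℝ) := by
    rw [h3]
    push_cast
    exact h2
  exact_mod_cast h4

lemma size_le {A B : ℤ} (hA : A ≠ 0) (hB : B ≠ 0) (hAB : A ≠ B) :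
    (size (E A B) : ℝ) ≤ (Run7.h318.BK.SN A B : ℝ) := by
  rw [size_E]
  exact_mod_cast (Run7.h318.BK.dim_E hA hB hAB).2

lemma squares : Squares := by
  intro ε hε
  obtain ⟨C, _, hC⟩ := Run7.h318.BK.box ⌈1 / ε⌉₊
  refine ⟨C, fun x y H hH hx hy => ?_⟩
  have h1 := hC (x, y) H hH (nat_of hε hH hx) (nat_of hε hH hy)
  refine le_trans ?_ h1
  have hS : Square x y H = Run7.h69.UF.SS (x, y) H := by
    unfold Square Run7.h69.UF.SS Run7.h69.UF.Bx
    apply filter_congr
    intro t _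
    unfold Run7.h69.UF.FF
    constructor
    · rintro ⟨a1, a2, a3⟩
      exact mul_ne_zero (mul_ne_zero a1 a2) (sub_ne_zero.2 a3)
    · intro h
      exact ⟨left_ne_zero_of_mul (left_ne_zero_of_mul h),
        right_ne_zero_of_mul (left_ne_zero_of_mul h), sub_ne_zero.1 (right_ne_zero_of_mul h)⟩
  rw [← hS]
  refine sum_le_sum fun t ht => ?_
  unfold Square at ht
  rw [mem_filter] at ht
  exact pow_le_pow_left₀ (Nat.cast_nonneg _) (size_le ht.2.1 ht.2.2.1 ht.2.2.2) 2

lemma twists : Twists := by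
  intro r a b ha hb hab f k ε hε
  obtain ⟨C, hC⟩ := Run7.h318.BK.PR.prods a b ha hb hab f k ⌈1 / ε⌉₊
  refine ⟨C, fun x H hH hx => le_trans (sum_le_sum fun t ht => ?_) (hC x H hH (nat_of hε hH hx))⟩
  rw [mem_filter] at ht
  refine pow_le_pow_left₀ (prod_nonneg fun i _ => Nat.cast_nonneg _)
    (prod_le_prod (fun i _ => Nat.cast_nonneg _) fun i _ => ?_) k
  exact size_le (mul_ne_zero (ha i) (ht.2 i)) (mul_ne_zero (hb i) (ht.2 i))
    (fun h => hab i (mul_right_cancel₀ (ht.2 i) h))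

lemma families : Families := by
  intro A B hsq δ hδ hδ1 hnm ε hε
  have hnum : ∀ (c : Fin 3) (S : ℚ[X] → Prop) (s : Finset ℚ[X]),
      (∀ q, q ∈ s ↔ q ∈ mult A B c ∧ S q) → Run7.h69.FZ.num A B c S = s.card := by
    intro c S s hs
    unfold Run7.h69.FZ.num
    congr 1
    ext q
    rw [hs, mem_filter]
    unfold mult
    rw [mem_filter, and_assoc]
    rfl
  have hn : ∀ c, Run7.h69.FZ.num A B c (fun _ => True) = n A B c := fun c =>
    hnum c _ _ fun q => by simp
  have hm : ∀ c, Run7.h69.FZ.num A B c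
      (fun q => ∃ s : ℚ[X], q ∣ Run7.h69.PK.qq (Run7.h69.FZ.gam A B c) - s ^ 2) = m A B c :=
    fun c => hnum c _ _ fun q => by
      rw [mem_filter]
      rfl
  obtain ⟨C, hC⟩ := Run7.h318.BK.FZ.main A B hsq hδ hδ1
    (fun c => by rw [hn, hn, hn, hm]; exact hnm c) ⌈1 / ε⌉₊
  refine ⟨C, fun x H hH hx => le_trans (sum_le_sum fun t ht => ?_) (hC x H hH (nat_of hε hH hx))⟩
  rw [mem_filter] at ht
  exact Real.rpow_le_rpow (Nat.cast_nonneg _) (size_le ht.2.1 ht.2.2.1 ht.2.2.2) hδ.le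

end proof

/-- **Theorem.** The Bloch–Kato Selmer groups `H¹_f(ℚ, V_2(W))` of the elliptic curves `W` over `ℚ`
with full rational 2-torsion are finite-dimensional, and their sizes have bounded moments. -/
theorem result :
    (∀ a b : ℤ, a ≠ 0 → b ≠ 0 → a ≠ b → Fin2 (E a b)) ∧
    Tendsto (fun H : ℕ => (Fam H).card) atTop atTop ∧
    (∀ H : ℕ, ∀ c ∈ Fam H, Fin2 (Es c.1 c.2)) ∧
    Squares ∧ ByHeight ∧ Twists ∧ Families := by
  refine ⟨fun a b ha hb hab => fin2_of (Run7.h318.BK.dim_E ha hb hab).1, ?_, ?_, squares, ?_,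
    twists, families⟩
  · simp only [Fam_eq]
    exact Pool.Agent.W307.RT.tendsto_of_low Run7.h69.UH.low2
  · simp only [Fam_eq]
    intro H c hc
    have h1 := Run7.h69.UH.F_spec hc
    unfold Pool.Agent.W307.RT.Cv at hc
    rw [mem_filter] at hc
    exact fin2_of (Run7.h318.BK.rel_dim h1 hc.2.1).1
  · unfold ByHeight
    simp only [Fam_eq]
    exact Run7.h318.BK.height

end Pool.Agent.Results.MP_787500_nt.MomentsOfBlochKatoSelmer
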